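import Pool.Agent.Lib.MP_a893c7_co.Sv.Df

/-! Counting: size of the selector and of the set of words it misses. -/

namespace Pool.Agent.Lib.MP_a893c7_co.Sv

open Finset Function
open scoped Classical

variable {I X A : Type} [Fintype I] [DecidableEq I] [Fintype A]

/-- Hidden positions of a word. -/
noncomputable def hid (ω : A) (U : I → A) : Finset I := univ.filter (fun j => U j = ω)

/-- Positions whose point is not used by `P`. -/
noncomputable def fr (x : I → X) (P : Finset I) : Finset I :=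
  univ.filter (fun a => ∀ b ∈ P, x a ≠ x b)

/-- Good sets of positions. -/
noncomputable def GP (x : I → X) (zm : ℕ) : Finset (Finset I) :=
  univ.filter (fun P => Set.InjOn x P ∧ P.card ≤ zm)

/-- The selector. -/
noncomputable def RR (x : I → X) (zm : ℕ) (T : Finset I → (I → A) → Prop) (ω : A) :
    Finset (I → A) :=
  univ.filter (fun r => Set.InjOn x (hid ω r) ∧ (hid ω r).card < zm ∧ T (hid ω r) r)

/-- The words missed by the selector. -/
noncomputable def NN (x : I → X) (zm : ℕ) (T : Finset I → (I → A) → Prop) (ω : A) :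
    Finset (I → A) :=
  univ.filter (fun U => ¬ ∃ r ∈ RR x zm T ω, ∃ a, U a = ω ∧ ∀ j, j ≠ a → U j = r j)

variable {x : I → X} {zm g M : ℕ} {T : Finset I → (I → A) → Prop} {ω : A}

theorem mem_hid {U : I → A} {j : I} : j ∈ hid ω U ↔ U j = ω := by simp [hid]

theorem mem_fr {P : Finset I} {a : I} : a ∈ fr x P ↔ ∀ b ∈ P, x a ≠ x b := by simp [fr]

theorem mem_GP {P : Finset I} : P ∈ GP x zm ↔ Set.InjOn x P ∧ P.card ≤ zm := by simp [GP]

theorem mem_RR {r : I → A} : r ∈ RR x zm T ω ↔
    Set.InjOn x (hid ω r) ∧ (hid ω r).card < zm ∧ T (hid ω r) r := by simp [RR]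

theorem fr_not {P : Finset I} {a : I} (h : a ∈ fr x P) : a ∉ P := fun ha =>
  mem_fr.1 h a ha rfl

theorem fr_inj {P : Finset I} {a : I} (h : a ∈ fr x P) (hP : Set.InjOn x P) :
    Set.InjOn x (insert a P : Finset I) := by
  rw [coe_insert]
  refine (Set.injOn_insert (fun h' => fr_not h (mem_coe.1 h'))).2 ⟨hP, ?_⟩
  rintro ⟨b, hb, e⟩
  exact mem_fr.1 h b (mem_coe.1 hb) e.symm

theorem card_fr (hM : ∀ ξ, (univ.filter (fun j => x j = ξ)).card ≤ M) {P : Finset I}
    (hP : P.card ≤ zm) : Fintype.card I - zm * M ≤ (fr x P).card := by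
  have h : (fr x P)ᶜ ⊆ P.biUnion (fun b => univ.filter (fun j => x j = x b)) := by
    intro a ha
    rw [mem_compl, mem_fr] at ha
    push Not at ha
    obtain ⟨b, hb, e⟩ := ha
    exact mem_biUnion.2 ⟨b, hb, by simp [e]⟩
  have h2 := (card_le_card h).trans (card_biUnion_le_card_mul _ _ M fun b _ => hM (x b))
  rw [card_compl] at h2
  have := Nat.mul_le_mul_right M hP
  omega

theorem hid_upd (r : I → A) (a : I) : hid ω (update r a ω) = insert a (hid ω r) := by
  ext j
  rw [mem_insert, mem_hid, mem_hid]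
  by_cases h : j = a
  · subst h; simp
  · simp [update_of_ne h, h]

theorem hid_upd' (U : I → A) (a : I) {α : A} (h : α ≠ ω) :
    hid ω (update U a α) = (hid ω U).erase a := by
  ext j
  rw [mem_erase, mem_hid, mem_hid]
  by_cases hj : j = a
  · subst hj; simp [h]
  · simp [update_of_ne hj, hj]

theorem mem_Om_hid (U : I → A) : U ∈ Om (hid ω U) (fun _ => ω) :=
  mem_Om.2 fun _ hj => mem_hid.1 hj

theorem sum_Om (S : Finset (Finset I)) :
    ∑ P ∈ S, (Om P (fun _ => ω)).card ≤ (Fintype.card A + 1) ^ Fintype.card I := by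
  have h := Finset.sum_pow_mul_eq_add_pow 1 (Fintype.card A) (univ : Finset I)
  rw [add_comm, ← card_univ (α := I), ← h]
  simp_rw [card_Om, one_pow, one_mul, card_univ]
  exact sum_le_sum_of_subset (by intro P _; simp)

theorem cnt_R (h : Sys x zm g T) (hM : ∀ ξ, (univ.filter (fun j => x j = ξ)).card ≤ M) :
    2 ^ g * ((RR x zm T ω).card * (Fintype.card I - zm * M)) ≤
      2 ^ g * Fintype.card A ^ Fintype.card I +
        zm ^ 2 * (Fintype.card A + 1) ^ Fintype.card I := by
  set G : Finset (I → A) := univ.filter (fun U => hid ω U ∈ GP x zm) with hG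
  have mG : ∀ U, U ∈ G ↔ hid ω U ∈ GP x zm := by simp [hG]
  have h1 : (RR x zm T ω).card * (Fintype.card I - zm * M) ≤
      ((RR x zm T ω).sigma (fun r => fr x (hid ω r))).card := by
    rw [card_sigma, ← smul_eq_mul, ← sum_const]
    exact sum_le_sum fun r hr => card_fr hM (mem_RR.1 hr).2.1.le
  have h2 : ((RR x zm T ω).sigma (fun r => fr x (hid ω r))).card ≤
      (G.sigma (fun U => Svs T (hid ω U) U)).card := by
    refine card_le_card_of_injOn (fun p => (⟨update p.1 p.2 ω, p.2⟩ : Σ _ : I → A, I)) ?_ ?_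
    · rintro ⟨r, a⟩ hp
      obtain ⟨hr, ha⟩ := mem_sigma.1 (mem_coe.1 hp)
      obtain ⟨hr1, hr2, hr3⟩ := mem_RR.1 hr
      dsimp only at hr ha hr1 hr2 hr3
      refine mem_coe.2 (mem_sigma.2 ⟨(mG _).2 (mem_GP.2 ?_), mem_Svs.2 ?_⟩)
      · dsimp only
        rw [hid_upd]
        exact ⟨fr_inj ha hr1, (card_insert_le _ _).trans hr2⟩
      · dsimp only
        rw [hid_upd]
        refine ⟨mem_insert_self _ _, r a, ?_⟩
        rw [erase_insert (fr_not ha), update_idem, update_eq_self]
        exact hr3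
    · rintro ⟨r, a⟩ hp ⟨r', a'⟩ hp' e
      obtain ⟨hr, ha⟩ := mem_sigma.1 (mem_coe.1 hp)
      obtain ⟨hr', ha'⟩ := mem_sigma.1 (mem_coe.1 hp')
      dsimp only at hr ha hr' ha' e
      obtain ⟨e1, e2⟩ := Sigma.mk.inj_iff.1 e
      obtain rfl : a = a' := eq_of_heq e2
      have e3 : hid ω r = hid ω r' := by
        rw [← erase_insert (fr_not ha), ← erase_insert (fr_not ha'), ← hid_upd, ← hid_upd, e1]
      have e4 : update r a (r' a) = r' := by
        rw [← update_idem (a := a) ω, e1, update_idem, update_eq_self]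
      have e5 : r a = r' a := by
        refine h.uniq (hid ω r) a (fr_not ha) (fr_inj ha (mem_RR.1 hr).1) r _ _ ?_ ?_
        · rw [update_eq_self]; exact (mem_RR.1 hr).2.2
        · rw [e4, e3]; exact (mem_RR.1 hr').2.2
      have e6 : r = r' := by rw [← e4, ← e5, update_eq_self]
      rw [e6]
  have h3 : (G.sigma (fun U => Svs T (hid ω U) U)).card ≤
      Fintype.card A ^ Fintype.card I + (G.sigma (fun U => (Svs T (hid ω U) U).offDiag)).card := by
    rw [card_sigma, card_sigma]
    have : G.card ≤ Fintype.card A ^ Fintype.card I := by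
      rw [← Fintype.card_fun]
      exact card_le_univ _
    calc _ ≤ ∑ U ∈ G, (1 + (Svs T (hid ω U) U).offDiag.card) := by
          refine sum_le_sum fun U _ => ?_
          rw [offDiag_card]
          generalize (Svs T (hid ω U) U).card = n
          rcases n with _ | n
          · simp
          · have : (n + 1) * (n + 1) = n * n + 2 * n + 1 := by ring
            have : n ≤ n * n := Nat.le_mul_self n
            omega
      _ ≤ _ := by
          rw [sum_add_distrib, sum_const, smul_eq_mul, mul_one]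
          exact Nat.add_le_add_right this _
  have h4 : (G.sigma (fun U => (Svs T (hid ω U) U).offDiag)).card ≤
      ((GP x zm).sigma (fun P => P.offDiag.sigma
        (fun p => Both T P P (fun _ => ω) p.1 p.2))).card := by
    refine card_le_card_of_injOn
      (fun p => (⟨hid ω p.1, p.2, p.1⟩ : Σ _ : Finset I, Σ _ : I × I, I → A)) ?_ ?_
    · rintro ⟨U, a, b⟩ hp
      obtain ⟨hU, hab⟩ := mem_sigma.1 (mem_coe.1 hp)
      obtain ⟨ha, hb, hab⟩ := mem_offDiag.1 hab
      exact mem_coe.2 (mem_sigma.2 ⟨(mG _).1 hU, mem_sigma.2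
        ⟨mem_offDiag.2 ⟨(mem_Svs.1 ha).1, (mem_Svs.1 hb).1, hab⟩,
          mem_Both.2 ⟨mem_Om_hid U, (mem_Svs.1 ha).2, (mem_Svs.1 hb).2⟩⟩⟩)
    · rintro ⟨U, p⟩ _ ⟨U', p'⟩ _ e
      obtain ⟨_, e2⟩ := Sigma.mk.inj_iff.1 e
      obtain ⟨e3, e4⟩ := Sigma.mk.inj_iff.1 (eq_of_heq e2)
      dsimp only at e3 e4
      rw [e3, eq_of_heq e4]
  have h5 : 2 ^ g * ((GP x zm).sigma (fun P => P.offDiag.sigma
        (fun p => Both T P P (fun _ => ω) p.1 p.2))).card ≤
      zm ^ 2 * (Fintype.card A + 1) ^ Fintype.card I := by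
    refine le_trans ?_ (Nat.mul_le_mul_left _ (sum_Om (ω := ω) (GP x zm)))
    rw [card_sigma, mul_sum, mul_sum]
    refine sum_le_sum fun P hP => ?_
    obtain ⟨hP1, hP2⟩ := mem_GP.1 hP
    rw [card_sigma, mul_sum]
    refine (sum_le_card_nsmul _ _ (Om P (fun _ => ω)).card fun p hp => ?_).trans ?_
    · obtain ⟨ha, hb, hab⟩ := mem_offDiag.1 hp
      exact h.pair P P subset_rfl hP1 hP2 _ ha _ hb hab _
    · rw [smul_eq_mul, offDiag_card, pow_two]
      exact Nat.mul_le_mul_right _ ((Nat.sub_le _ _).trans (Nat.mul_le_mul hP2 hP2))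
  calc _ ≤ 2 ^ g * (Fintype.card A ^ Fintype.card I + _) :=
        Nat.mul_le_mul_left _ (h1.trans (h2.trans (h3.trans (Nat.add_le_add_left h4 _))))
    _ ≤ _ := by
        rw [mul_add]
        exact Nat.add_le_add_left h5 _

theorem cnt_0 : (univ.filter (fun U : I → A => ∀ j, U j ≠ ω)).card
    = (Fintype.card A - 1) ^ Fintype.card I := by
  have h : univ.filter (fun U : I → A => ∀ j, U j ≠ ω)
      = Fintype.piFinset (fun _ => univ.erase ω) := by
    ext U
    simp [Fintype.mem_piFinset]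
  rw [h, Fintype.card_piFinset, prod_const, card_erase_of_mem (mem_univ _), card_univ, card_univ]

theorem cnt_1 : zm * (univ.filter (fun U : I → A => zm < (hid ω U).card)).card ≤
    Fintype.card I * Fintype.card A ^ (Fintype.card I - 1) := by
  have h : ∑ U : I → A, (hid ω U).card = ∑ a : I, (Om {a} (fun _ => ω)).card := by
    simp only [hid, Om, card_filter]
    rw [sum_comm]
    refine sum_congr rfl fun a _ => sum_congr rfl fun U _ => ?_
    simp
  simp_rw [card_Om, card_singleton, sum_const, card_univ, smul_eq_mul] at h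
  rw [← h, mul_comm, ← smul_eq_mul, ← sum_const]
  exact (sum_le_sum fun U hU => (mem_filter.1 hU).2.le).trans
    (sum_le_sum_of_subset (subset_univ _))

theorem cnt_2 (hM : ∀ ξ, (univ.filter (fun j => x j = ξ)).card ≤ M) :
    (univ.filter (fun U : I → A => ¬ Set.InjOn x (hid ω U))).card ≤
      Fintype.card I * (M * Fintype.card A ^ (Fintype.card I - 2)) := by
  have h : univ.filter (fun U : I → A => ¬ Set.InjOn x (hid ω U)) ⊆
      univ.biUnion (fun a : I => ((univ.filter (fun j => x j = x a)).erase a).biUnion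
        (fun b => Om {a, b} (fun _ => ω))) := by
    intro U hU
    have := (mem_filter.1 hU).2
    unfold Set.InjOn at this
    push Not at this
    obtain ⟨a, ha, b, hb, e, hne⟩ := this
    refine mem_biUnion.2 ⟨a, mem_univ _, mem_biUnion.2 ⟨b, mem_erase.2 ⟨hne.symm, by simp [e]⟩,
      mem_Om.2 fun j hj => ?_⟩⟩
    rcases mem_insert.1 hj with rfl | hj
    · exact mem_hid.1 (mem_coe.1 ha)
    · rw [mem_singleton.1 hj]
      exact mem_hid.1 (mem_coe.1 hb)
  refine (card_le_card h).trans ((card_biUnion_le_card_mul _ _ _ fun a _ => ?_).trans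
    (by rw [card_univ]))
  refine (card_biUnion_le_card_mul _ _ (Fintype.card A ^ (Fintype.card I - 2))
    fun b hb => ?_).trans (Nat.mul_le_mul_right _ ((card_erase_le).trans (hM _)))
  rw [card_Om, card_pair (mem_erase.1 hb).1.symm]

theorem cnt_3 (h : Sys x zm g T) (hM : ∀ ξ, (univ.filter (fun j => x j = ξ)).card ≤ M)
    (hk : zm * M < Fintype.card I) :
    Fintype.card A * (univ.filter (fun U : I → A => hid ω U ∈ GP x zm ∧
      ∃ a ∈ hid ω U, T ((hid ω U).erase a) U)).card ≤
        zm * (Fintype.card A + 1) ^ Fintype.card I := by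
  have h1 : univ.filter (fun U : I → A => hid ω U ∈ GP x zm ∧
      ∃ a ∈ hid ω U, T ((hid ω U).erase a) U) ⊆ (GP x zm).biUnion (fun P => P.biUnion
        (fun a => (Om P (fun _ => ω)).filter (fun U => T (P.erase a) U))) := by
    intro U hU
    obtain ⟨hG, a, ha, hT⟩ := (mem_filter.1 hU).2
    exact mem_biUnion.2 ⟨_, hG, mem_biUnion.2 ⟨a, ha, mem_filter.2 ⟨mem_Om_hid U, hT⟩⟩⟩
  refine le_trans ?_ (Nat.mul_le_mul_left _ (sum_Om (ω := ω) (GP x zm)))
  refine (Nat.mul_le_mul_left _ ((card_le_card h1).trans card_biUnion_le)).trans ?_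
  rw [mul_sum, mul_sum]
  refine sum_le_sum fun P hP => ?_
  obtain ⟨hP1, hP2⟩ := mem_GP.1 hP
  refine (Nat.mul_le_mul_left _ card_biUnion_le).trans ?_
  rw [mul_sum]
  refine (sum_le_card_nsmul _ _ (Om P (fun _ => ω)).card fun a _ => ?_).trans
    (by rw [smul_eq_mul]; exact Nat.mul_le_mul_right _ hP2)
  obtain ⟨c, hc⟩ : (fr x P).Nonempty := by
    have := card_fr hM hP2
    exact card_pos.1 (by omega)
  have hc' : c ∈ fr x (P.erase a) := mem_fr.2 fun b hb => mem_fr.1 hc b (mem_erase.1 hb).2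
  rw [← card_univ (α := A), ← card_product]
  refine card_le_card_of_injOn (fun p => update p.2 c p.1) ?_ ?_
  · rintro ⟨α, U⟩ hp
    have hU := (mem_filter.1 (mem_product.1 (mem_coe.1 hp)).2).1
    refine mem_coe.2 (mem_Om.2 fun j hj => ?_)
    show update U c α j = ω
    rw [update_of_ne (fun e : j = c => fr_not hc (e ▸ hj))]
    exact mem_Om.1 hU j hj
  · rintro ⟨α, U⟩ hp ⟨α', U'⟩ hp' e
    have hU := (mem_filter.1 (mem_product.1 (mem_coe.1 hp)).2).2
    have hU' := (mem_filter.1 (mem_product.1 (mem_coe.1 hp')).2).2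
    dsimp only at hU hU' e
    have e1 : α = α' := by simpa using congrFun e c
    have e4 : update U c (U' c) = U' := by
      rw [← update_idem (a := c) α, e, update_idem, update_eq_self]
    have e5 : U c = U' c := by
      refine h.uniq (P.erase a) c (fr_not hc')
        (fr_inj hc' (hP1.mono (coe_subset.2 (erase_subset _ _)))) U _ _ ?_ ?_
      · rw [update_eq_self]; exact hU
      · rw [e4]; exact hU'
    have e6 : U = U' := by rw [← e4, ← e5, update_eq_self]
    rw [e1, e6]

theorem cnt_N (h : Sys x zm g T) : (NN x zm T ω).card ≤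
    (univ.filter (fun U : I → A => ∀ j, U j ≠ ω)).card +
    (univ.filter (fun U : I → A => zm < (hid ω U).card)).card +
    (univ.filter (fun U : I → A => ¬ Set.InjOn x (hid ω U))).card +
    (univ.filter (fun U : I → A => hid ω U ∈ GP x zm ∧
      ∃ a ∈ hid ω U, T ((hid ω U).erase a) U)).card := by
  refine le_trans (card_le_card ?_) ((card_union_le _ _).trans (Nat.add_le_add_right
    ((card_union_le _ _).trans (Nat.add_le_add_right (card_union_le _ _) _)) _))
  intro U hU
  by_contra hcon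
  simp only [mem_union, mem_filter, mem_univ, true_and, not_or, not_forall, not_not, not_lt,
    not_and, not_exists] at hcon
  obtain ⟨⟨⟨⟨j, hj⟩, h1⟩, h2⟩, h3⟩ := hcon
  obtain ⟨a, ha, α, hα⟩ := h.cover _ h2 ⟨j, mem_hid.2 hj⟩ U
  have hne : α ≠ ω := by
    rintro rfl
    rw [← mem_hid.1 ha, update_eq_self, mem_hid.1 ha] at hα
    exact h3 (mem_GP.2 ⟨h2, h1⟩) a ha hα
  refine (mem_filter.1 hU).2 ⟨update U a α, mem_RR.2 ?_, a, mem_hid.1 ha,
    fun i hi => (update_of_ne hi _ _).symm⟩
  rw [hid_upd' U a hne]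
  exact ⟨h2.mono (coe_subset.2 (erase_subset _ _)), (card_erase_lt_of_mem ha).trans_le h1, hα⟩

end Pool.Agent.Lib.MP_a893c7_co.Sv
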