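import Pool.Agent.Lib.MP_a893c7_co.Sv.St
import Pool.Agent.Lib.MP_a893c7_co.Sv.Ct

/-! The near perfect selector with explicit parameters. -/

namespace Pool.Agent.Lib.MP_a893c7_co.Sv

open Finset Function
open scoped Classical

theorem pow_up (q : ℕ) (hq : 0 < q) : (q + 1) ^ (12 * q) ≤ 2 ^ 20 * q ^ (12 * q) := by
  have hq' : (0 : ℝ) < q := by exact_mod_cast hq
  have h1 : (q : ℝ) + 1 ≤ q * Real.exp (1 / q) := by
    have := Real.add_one_le_exp (1 / (q : ℝ))
    calc (q : ℝ) + 1 = q * (1 / q + 1) := by field_simp; ring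
      _ ≤ _ := mul_le_mul_of_nonneg_left this hq'.le
  have h2 : Real.exp (1 / q) ^ (12 * q) = Real.exp 1 ^ 12 := by
    rw [← Real.exp_nat_mul, ← Real.exp_nat_mul]
    congr 1
    push_cast
    field_simp
  have h3 : Real.exp 1 ^ 12 ≤ 3 ^ 12 :=
    pow_le_pow_left₀ (Real.exp_pos _).le (Real.exp_one_lt_d9.le.trans (by norm_num)) _
  have h4 : ((q : ℝ) + 1) ^ (12 * q) ≤ 2 ^ 20 * (q : ℝ) ^ (12 * q) := by
    calc _ ≤ (q * Real.exp (1 / q)) ^ (12 * q) := pow_le_pow_left₀ (by positivity) h1 _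
      _ = Real.exp 1 ^ 12 * (q : ℝ) ^ (12 * q) := by rw [mul_pow, h2, mul_comm]
      _ ≤ _ := mul_le_mul_of_nonneg_right (h3.trans (by norm_num)) (by positivity)
  exact_mod_cast h4

theorem pow_dn (q : ℕ) (hq : 0 < q) : 2 ^ 12 * (q - 1) ^ (12 * q) ≤ q ^ (12 * q) := by
  obtain ⟨p, rfl⟩ : ∃ p, q = p + 1 := ⟨q - 1, by omega⟩
  have h : 2 * p ^ (p + 1) ≤ (p + 1) ^ (p + 1) := by
    rcases Nat.eq_zero_or_pos p with rfl | hp
    · simp
    · have hp' : (0 : ℝ) < p := by exact_mod_cast hp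
      have h1 := one_add_mul_le_pow (a := 1 / (p : ℝ))
        (le_trans (by norm_num) (by positivity : (0 : ℝ) ≤ 1 / p)) (p + 1)
      have h2 : (2 : ℝ) ≤ 1 + ((p + 1 : ℕ) : ℝ) * (1 / p) := by
        push_cast
        rw [mul_one_div, add_div, div_self hp'.ne']
        have : (0 : ℝ) ≤ 1 / p := by positivity
        linarith
      have h3 : (2 : ℝ) * (p : ℝ) ^ (p + 1) ≤ ((p : ℝ) + 1) ^ (p + 1) := by
        calc _ ≤ (1 + 1 / (p : ℝ)) ^ (p + 1) * (p : ℝ) ^ (p + 1) :=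
              mul_le_mul_of_nonneg_right (h2.trans h1) (by positivity)
          _ = _ := by
              rw [← mul_pow]
              congr 1
              field_simp
      exact_mod_cast h3
  rw [Nat.add_sub_cancel, mul_comm 12, pow_mul, pow_mul, ← mul_pow]
  exact Nat.pow_le_pow_left h _

theorem ex_l : ∃ (l : GaloisField 2 23 →+ ZMod 2) (w0 : GaloisField 2 23), l w0 = 1 ∧
    Nat.card l.ker = 2 ^ 22 := by
  obtain ⟨f, hf⟩ := Module.Projective.exists_dual_eq_one (ZMod 2)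
    (one_ne_zero (α := GaloisField 2 23))
  refine ⟨f.toAddMonoidHom, 1, hf, ?_⟩
  have hs : Surjective f.toAddMonoidHom := by
    intro t
    refine ⟨t • 1, ?_⟩
    simp [hf]
  have h1 := AddSubgroup.card_eq_card_quotient_mul_card_addSubgroup f.toAddMonoidHom.ker
  rw [Nat.card_congr (QuotientAddGroup.quotientKerEquivOfSurjective _ hs).toEquiv,
    GaloisField.card 2 23 (by norm_num), Nat.card_zmod] at h1
  omega

theorem block : ∃ (t : ℕ) (I A : Type) (_ : Fintype I) (_ : DecidableEq I) (_ : Fintype A) (ω : A)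
    (R N : Finset (I → A)), Fintype.card A = 2 ^ t ∧ Fintype.card I = 12 * 2 ^ t ∧
    20 * (R.card * Fintype.card I) ≤ 21 * (2 ^ t) ^ Fintype.card I ∧
    1024 * N.card ≤ (2 ^ t) ^ Fintype.card I ∧
    ∀ U : I → A, U ∉ N → ∃ r ∈ R, ∃ a, U a = ω ∧ ∀ j, j ≠ a → U j = r j := by
  obtain ⟨l, w0, hw, hK⟩ := ex_l
  obtain ⟨s, hs, hs0⟩ : ∃ s : ℕ, (2 ^ 22) ^ 58 = 2 ^ 48 * 2 ^ s ∧ 22 * 58 = 48 + s :=
    ⟨1228, by rw [← pow_mul, ← pow_add], by norm_num⟩
  obtain ⟨c, hc⟩ : ∃ c, c = 2 ^ s := ⟨_, rfl⟩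
  have hc0 : 0 < c := hc ▸ by positivity
  let F := GaloisField 2 23
  letI : Fintype F := Fintype.ofFinite _
  letI : Fintype l.ker := Fintype.ofFinite _
  have hF : Fintype.card F = 2 ^ 23 := by
    rw [← Nat.card_eq_fintype_card]
    exact GaloisField.card 2 23 (by norm_num)
  obtain ⟨M, hM⟩ : ∃ M, M = 12 * 2 ^ 25 * c := ⟨_, rfl⟩
  let I := F × Fin M
  letI : DecidableEq I := Classical.decEq _
  let x : I → F := Prod.fst
  have hx : ∀ ξ : F, ∃ j j' : I, j ≠ j' ∧ x j = ξ ∧ x j' = ξ := fun ξ =>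
    ⟨(ξ, ⟨0, by omega⟩), (ξ, ⟨1, by omega⟩),
      fun e => zero_ne_one (congrArg (fun p : F × Fin M => p.2.1) e), rfl, rfl⟩
  have hfib : ∀ ξ, (univ.filter (fun j => x j = ξ)).card ≤ M := by
    intro ξ
    refine le_trans (card_le_card_of_injOn (t := univ) Prod.snd (by simp) ?_) (by simp)
    intro a ha b hb e
    have h1 : x a = ξ := by simpa using ha
    have h2 : x b = ξ := by simpa using hb
    exact Prod.ext (h1.trans h2.symm) e
  obtain ⟨A, _, T, hA, hS⟩ := sys_all (st_sys (x := x) (zm := 2 ^ 16) hw (by rw [hF]; norm_num) hx)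
    nx_eq 58
  rw [← Nat.card_eq_fintype_card (α := l.ker), hK, hs, ← hc] at hA
  obtain ⟨q, hq⟩ : ∃ q, q = 2 ^ 48 * c := ⟨_, rfl⟩
  have hq0 : 0 < q := by omega
  have hI : Fintype.card I = 12 * q := by
    rw [Fintype.card_prod, hF, Fintype.card_fin]
    omega
  rw [← hq] at hA
  obtain ⟨ω⟩ : Nonempty A := Fintype.card_pos_iff.1 (by omega)
  have hqt : 2 ^ (48 + s) = q := by rw [pow_add, ← hc, hq]
  have hR := cnt_R (ω := ω) hS hfib
  have h0 := cnt_0 (I := I) (ω := ω)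
  have h1 := cnt_1 (I := I) (ω := ω) (zm := 2 ^ 16)
  have h2 := cnt_2 (ω := ω) hfib
  have h3 := cnt_3 (ω := ω) hS hfib (by omega)
  have hN := cnt_N (ω := ω) hS
  have hu := pow_up q hq0
  have hd := pow_dn q hq0
  rw [hA, hI] at hR h0 h1 h2 h3
  refine ⟨48 + s, I, A, inferInstance, inferInstance, inferInstance, ω, RR x (2 ^ 16) T ω,
    NN x (2 ^ 16) T ω, by rw [hqt, hA], by rw [hqt, hI], ?_, ?_, ?_⟩
  · rw [hqt, hI]
    have e1 : 12 * q - 2 ^ 16 * M = 127 * (12 * 2 ^ 41 * c) := by omega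
    have e2 : 12 * q = 128 * (12 * 2 ^ 41 * c) := by omega
    rw [e1, mul_left_comm _ 127] at hR
    have e3 : (RR x (2 ^ 16) T ω).card * (12 * q) =
        128 * ((RR x (2 ^ 16) T ω).card * (12 * 2 ^ 41 * c)) := by
      rw [mul_left_comm 128, ← e2]
    rw [e3]
    generalize (RR x (2 ^ 16) T ω).card * (12 * 2 ^ 41 * c) = a at hR ⊢
    generalize (q + 1) ^ (12 * q) = b at hR hu
    generalize q ^ (12 * q) = d at hR hu ⊢
    omega
  · rw [hqt, hI]
    rw [h0] at hN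
    have e1 : 12 * q * q ^ (12 * q - 1) = 12 * q ^ (12 * q) := by
      rw [mul_assoc, ← pow_succ']
      congr 2
      omega
    have e2 : 2 ^ 23 * (12 * q * (M * q ^ (12 * q - 2))) = 144 * q ^ (12 * q) := by
      have : q ^ (12 * q) = q * q * q ^ (12 * q - 2) := by
        rw [← pow_two, ← pow_add]
        congr 1
        omega
      have hM' : 2 ^ 23 * M = 12 * q := by omega
      rw [this]
      calc _ = 12 * q * ((2 ^ 23 * M) * q ^ (12 * q - 2)) := by ring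
        _ = _ := by rw [hM']; ring
    rw [e1] at h1
    have h3' := (Nat.mul_le_mul_right _ (show 2 ^ 48 ≤ q by omega)).trans h3
    generalize 12 * q * (M * q ^ (12 * q - 2)) = a at h2 e2
    generalize (q + 1) ^ (12 * q) = b at h3' hu
    generalize (q - 1) ^ (12 * q) = b' at hN hd
    generalize q ^ (12 * q) = d at h1 e2 hu hd ⊢
    omega
  · intro U hU
    by_contra h
    exact hU (mem_filter.2 ⟨mem_univ _, h⟩)

end Pool.Agent.Lib.MP_a893c7_co.Sv
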