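import Mathlib

/-! Selector systems for the block model of 2-bases: definitions and the step lemma. -/

namespace Pool.Agent.Lib.MP_a893c7_co.Sv

open Finset Function
open scoped Classical

variable {I X : Type} [Fintype I] [DecidableEq I]

/-- Words that agree with `u0` on `Z`. -/
noncomputable def Om {A : Type} [Fintype A] (Z : Finset I) (u0 : I → A) : Finset (I → A) :=
  univ.filter (fun u => ∀ j ∈ Z, u j = u0 j)

/-- The hidden position `a` of `(P, u)` can be filled with a letter so that the test holds. -/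
def Surv {A : Type} (T : Finset I → (I → A) → Prop) (P : Finset I) (u : I → A) (a : I) : Prop :=
  ∃ α, T (P.erase a) (update u a α)

/-- Words of `Om Z u0` in which both `a` and `b` survive. -/
noncomputable def Both {A : Type} [Fintype A] (T : Finset I → (I → A) → Prop) (Z P : Finset I)
    (u0 : I → A) (a b : I) : Finset (I → A) :=
  (Om Z u0).filter (fun u => Surv T P u a ∧ Surv T P u b)

/-- The survivors of `(P, u)`. -/
noncomputable def Svs {A : Type} (T : Finset I → (I → A) → Prop) (P : Finset I) (u : I → A) :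
    Finset I :=
  P.filter (fun a => Surv T P u a)

structure Sys (x : I → X) (zm : ℕ) {A : Type} [Fintype A] (g : ℕ)
    (T : Finset I → (I → A) → Prop) : Prop where
  cover : ∀ P : Finset I, Set.InjOn x P → P.Nonempty → ∀ u, ∃ a ∈ P, Surv T P u a
  uniq : ∀ (Y : Finset I) (a : I), a ∉ Y → Set.InjOn x (insert a Y : Finset I) → ∀ u α β,
    T Y (update u a α) → T Y (update u a β) → α = β
  pair : ∀ Z P : Finset I, P ⊆ Z → Set.InjOn x Z → Z.card ≤ zm → ∀ a ∈ P, ∀ b ∈ P, a ≠ b →
    ∀ u0, 2 ^ g * (Both T Z P u0 a b).card ≤ (Om Z u0).card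

theorem mem_Om {A : Type} [Fintype A] {Z : Finset I} {u0 u : I → A} :
    u ∈ Om Z u0 ↔ ∀ j ∈ Z, u j = u0 j := by
  simp [Om]

theorem mem_Both {A : Type} [Fintype A] {T : Finset I → (I → A) → Prop} {Z P : Finset I}
    {u0 u : I → A} {a b : I} :
    u ∈ Both T Z P u0 a b ↔ u ∈ Om Z u0 ∧ Surv T P u a ∧ Surv T P u b := by
  simp [Both]

theorem mem_Svs {A : Type} {T : Finset I → (I → A) → Prop} {P : Finset I} {u : I → A} {a : I} :
    a ∈ Svs T P u ↔ a ∈ P ∧ Surv T P u a := by
  simp [Svs]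

theorem card_Om {A : Type} [Fintype A] (Z : Finset I) (u0 : I → A) :
    (Om Z u0).card = Fintype.card A ^ (Fintype.card I - Z.card) := by
  have h : Om Z u0 = Fintype.piFinset (fun j => if j ∈ Z then {u0 j} else univ) := by
    ext u
    rw [mem_Om, Fintype.mem_piFinset]
    constructor
    · intro h j
      split_ifs with hj
      · simp [h j hj]
      · simp
    · intro h j hj
      have := h j
      simpa [hj] using this
  rw [h, Fintype.card_piFinset]
  have : ∀ j, (if j ∈ Z then ({u0 j} : Finset A) else univ).card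
      = if j ∈ Zᶜ then Fintype.card A else 1 := by
    intro j
    by_cases hj : j ∈ Z <;> simp [hj]
  simp_rw [this]
  rw [Finset.prod_ite_mem, univ_inter, prod_const, card_compl]

theorem sys_zero (x : I → X) (zm : ℕ) : Sys x zm (A := Unit) 0 (fun _ _ => True) where
  cover := fun P _ hP u => by
    obtain ⟨a, ha⟩ := hP
    exact ⟨a, ha, (), trivial⟩
  uniq := fun _ _ _ _ _ _ _ _ _ => rfl
  pair := fun Z P _ _ _ a _ b _ _ u0 => by
    rw [pow_zero, one_mul]
    exact card_filter_le _ _

/-- The test of the product system. -/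
def Tp {K A : Type} (ps : Finset I → (I → K) → Prop) (nx : Finset I → (I → K) → Finset I)
    (T : Finset I → (I → A) → Prop) (Y : Finset I) (v : I → K × A) : Prop :=
  ps Y (fun j => (v j).1) ∧ T (nx Y (fun j => (v j).1)) (fun j => (v j).2)

theorem upd_fst {K A : Type} (u : I → K × A) (a : I) (α : K × A) :
    (fun j => (update u a α j).1) = update (fun j => (u j).1) a α.1 := by
  funext j
  by_cases h : j = a
  · subst h; simp
  · simp [update_of_ne h]

theorem upd_snd {K A : Type} (u : I → K × A) (a : I) (α : K × A) :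
    (fun j => (update u a α j).2) = update (fun j => (u j).2) a α.2 := by
  funext j
  by_cases h : j = a
  · subst h; simp
  · simp [update_of_ne h]

theorem sys_step {x : I → X} {zm : ℕ} {K A : Type} [Fintype K] [Fintype A] {g : ℕ}
    {ps : Finset I → (I → K) → Prop} {nx : Finset I → (I → K) → Finset I}
    {T : Finset I → (I → A) → Prop} (h1 : Sys x zm 1 ps)
    (hnx : ∀ P : Finset I, Set.InjOn x P → ∀ a ∈ P, ∀ w α, ps (P.erase a) (update w a α) →
      nx (P.erase a) (update w a α) = (Svs ps P w).erase a)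
    (h : Sys x zm g T) : Sys x zm (g + 1) (Tp ps nx T) := by
  have key : ∀ P : Finset I, Set.InjOn x P → ∀ a ∈ P, ∀ u : I → K × A,
      Surv (Tp ps nx T) P u a ↔ a ∈ Svs ps P (fun j => (u j).1) ∧
        Surv T (Svs ps P (fun j => (u j).1)) (fun j => (u j).2) a := by
    intro P hP a ha u
    constructor
    · rintro ⟨α, h1', h2'⟩
      rw [upd_fst] at h1' h2'
      rw [upd_snd, hnx P hP a ha _ _ h1'] at h2'
      exact ⟨mem_Svs.2 ⟨ha, _, h1'⟩, _, h2'⟩
    · rintro ⟨h1', β, h2'⟩
      obtain ⟨_, α, hα⟩ := mem_Svs.1 h1'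
      refine ⟨(α, β), ?_, ?_⟩
      · rw [upd_fst]; exact hα
      · rw [upd_fst, upd_snd, hnx P hP a ha _ _ hα]; exact h2'
  have sub : ∀ (P : Finset I) (w : I → K), Svs ps P w ⊆ P := fun P w => filter_subset _ _
  refine ⟨?_, ?_, ?_⟩
  · intro P hP hne u
    obtain ⟨a, ha, hs⟩ := h1.cover P hP hne (fun j => (u j).1)
    obtain ⟨b, hb, hs'⟩ := h.cover (Svs ps P (fun j => (u j).1))
      (hP.mono (coe_subset.2 (sub _ _))) ⟨a, mem_Svs.2 ⟨ha, hs⟩⟩ (fun j => (u j).2)
    exact ⟨b, sub _ _ hb, (key P hP b (sub _ _ hb) u).2 ⟨hb, hs'⟩⟩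
  · intro Y a ha hY u α β hα hβ
    obtain ⟨hα1, hα2⟩ := hα
    obtain ⟨hβ1, hβ2⟩ := hβ
    rw [upd_fst] at hα1 hα2 hβ1 hβ2
    rw [upd_snd] at hα2 hβ2
    have e1 : α.1 = β.1 := h1.uniq Y a ha hY _ _ _ hα1 hβ1
    rw [← e1] at hβ2
    have e0 : (insert a Y).erase a = Y := erase_insert ha
    have hn := hnx (insert a Y) hY a (mem_insert_self _ _) (fun j => (u j).1) α.1
      (by rw [e0]; exact hα1)
    rw [e0] at hn
    rw [hn] at hα2 hβ2
    have e2 : α.2 = β.2 := by
      refine h.uniq _ a (notMem_erase _ _) (hY.mono (coe_subset.2 ?_)) _ _ _ hα2 hβ2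
      exact insert_subset (mem_insert_self _ _) ((erase_subset _ _).trans (sub _ _))
    exact Prod.ext e1 e2
  · intro Z P hPZ hZ hc a ha b hb hab u0
    have hP : Set.InjOn x P := hZ.mono (coe_subset.2 hPZ)
    set w0 : I → K := fun j => (u0 j).1 with hw0
    set v0 : I → A := fun j => (u0 j).2 with hv0
    have hOm : (Om Z u0).card = (Om Z w0).card * (Om Z v0).card := by
      rw [card_Om, card_Om, card_Om, Fintype.card_prod, mul_pow]
    have hle : (Both (Tp ps nx T) Z P u0 a b).card ≤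
        ((Both ps Z P w0 a b).sigma (fun w => Both T Z (Svs ps P w) v0 a b)).card := by
      refine card_le_card_of_injOn
        (fun u => (⟨fun j => (u j).1, fun j => (u j).2⟩ : Σ _ : I → K, I → A)) ?_ ?_
      · intro u hu
        obtain ⟨hu0, hua, hub⟩ := mem_Both.1 (mem_coe.1 hu)
        obtain ⟨ha1, ha2⟩ := (key P hP a ha u).1 hua
        obtain ⟨hb1, hb2⟩ := (key P hP b hb u).1 hub
        refine mem_coe.2 (mem_sigma.2 ⟨mem_Both.2 ⟨?_, (mem_Svs.1 ha1).2, (mem_Svs.1 hb1).2⟩,
          mem_Both.2 ⟨?_, ha2, hb2⟩⟩)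
        · exact mem_Om.2 fun j hj => by simp only [hw0, mem_Om.1 hu0 j hj]
        · exact mem_Om.2 fun j hj => by simp only [hv0, mem_Om.1 hu0 j hj]
      · intro u _ u' _ e
        have e1 := congrArg Sigma.fst e
        have e2 : (fun j => (u j).2) = (fun j => (u' j).2) := by
          simpa using (Sigma.mk.inj_iff.1 e).2
        funext j
        exact Prod.ext (congrFun e1 j) (congrFun e2 j)
    rw [card_sigma] at hle
    have h2 : 2 ^ g * ∑ w ∈ Both ps Z P w0 a b, (Both T Z (Svs ps P w) v0 a b).card ≤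
        (Both ps Z P w0 a b).card * (Om Z v0).card := by
      rw [mul_sum, ← smul_eq_mul, ← sum_const]
      refine sum_le_sum fun w hw => ?_
      obtain ⟨_, hwa, hwb⟩ := mem_Both.1 hw
      exact h.pair Z _ ((sub _ _).trans hPZ) hZ hc a (mem_Svs.2 ⟨ha, hwa⟩) b
        (mem_Svs.2 ⟨hb, hwb⟩) hab v0
    have h3 := h1.pair Z P hPZ hZ hc a ha b hb hab w0
    rw [pow_one] at h3
    calc 2 ^ (g + 1) * (Both (Tp ps nx T) Z P u0 a b).card
        ≤ 2 * (2 ^ g * ∑ w ∈ Both ps Z P w0 a b, (Both T Z (Svs ps P w) v0 a b).card) := by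
          rw [pow_succ, mul_comm (2 ^ g) 2, mul_assoc]
          exact Nat.mul_le_mul_left _ (Nat.mul_le_mul_left _ hle)
      _ ≤ 2 * ((Both ps Z P w0 a b).card * (Om Z v0).card) := Nat.mul_le_mul_left _ h2
      _ ≤ (Om Z u0).card := by
          rw [hOm, ← mul_assoc]
          exact Nat.mul_le_mul_right _ h3

theorem sys_all {x : I → X} {zm : ℕ} {K : Type} [Fintype K]
    {ps : Finset I → (I → K) → Prop} {nx : Finset I → (I → K) → Finset I} (h1 : Sys x zm 1 ps)
    (hnx : ∀ P : Finset I, Set.InjOn x P → ∀ a ∈ P, ∀ w α, ps (P.erase a) (update w a α) →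
      nx (P.erase a) (update w a α) = (Svs ps P w).erase a) (g : ℕ) :
    ∃ (A : Type) (_ : Fintype A) (T : Finset I → (I → A) → Prop),
      Fintype.card A = Fintype.card K ^ g ∧ Sys x zm g T := by
  induction g with
  | zero => exact ⟨Unit, inferInstance, _, by simp, sys_zero x zm⟩
  | succ g ih =>
    obtain ⟨A, _, T, hc, h⟩ := ih
    exact ⟨K × A, inferInstance, _, by rw [Fintype.card_prod, hc, pow_succ'], sys_step h1 hnx h⟩

end Pool.Agent.Lib.MP_a893c7_co.Sv
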