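import Mathlib

/-! From a near perfect selector in the block model to a small 2-base. -/

namespace Pool.Agent.Lib.MP_a893c7_co.Sv

open Finset

theorem fin_move {G : Type} [Fintype G] [DecidableEq G] {n : ℕ} (hn : Fintype.card G = n)
    (B : Finset (Finset G)) (h : ∀ S : Finset G, ∃ B₁ ∈ B, ∃ B₂ ∈ B, S = B₁ ∪ B₂) :
    ∃ B' : Finset (Finset (Fin n)), B'.card ≤ B.card ∧
      ∀ S : Finset (Fin n), ∃ B₁ ∈ B', ∃ B₂ ∈ B', S = B₁ ∪ B₂ := by
  let e : G ≃ Fin n := Fintype.equivFinOfCardEq hn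
  refine ⟨B.image fun S => S.map e.toEmbedding, card_image_le, fun S => ?_⟩
  obtain ⟨B₁, h₁, B₂, h₂, k⟩ := h (S.map e.symm.toEmbedding)
  refine ⟨_, mem_image_of_mem _ h₁, _, mem_image_of_mem _ h₂, ?_⟩
  rw [← map_union, ← k, map_map]
  simp

theorem fin_union {α β : Type} [DecidableEq α] [DecidableEq β] (a c : Finset α) (b d : Finset β) :
    a.disjSum b ∪ c.disjSum d = (a ∪ c).disjSum (b ∪ d) := by
  ext (x | x) <;> simp

theorem fin_split {β : Type} [Fintype β] [DecidableEq β] (S W : Finset β) :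
    S ∩ W ∪ S ∩ Wᶜ = S := by
  rw [← inter_union_distrib_left, union_compl, inter_univ]

theorem small_base {I A : Type} [Fintype I] [DecidableEq I] [Fintype A] (t : ℕ) (ω : A)
    (R N : Finset (I → A)) (hA : Fintype.card A = 2 ^ t) (hI : Fintype.card I = 12 * 2 ^ t)
    (hR : 20 * (R.card * Fintype.card I) ≤ 21 * (2 ^ t) ^ Fintype.card I)
    (hN : 1024 * N.card ≤ (2 ^ t) ^ Fintype.card I)
    (hc : ∀ U : I → A, U ∉ N → ∃ r ∈ R, ∃ a, U a = ω ∧ ∀ j, j ≠ a → U j = r j) :
    ∃ (n : ℕ) (B : Finset (Finset (Fin n))), B.card < 2 ^ (n / 2) + 2 ^ ((n + 1) / 2) - 1 ∧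
      ∀ S : Finset (Fin n), ∃ B₁ ∈ B, ∃ B₂ ∈ B, S = B₁ ∪ B₂ := by
  classical
  let e0 : A ≃ Finset (Fin t) := Fintype.equivOfCardEq (by simp [hA])
  let e : A ≃ Finset (Fin t) := e0.trans (Equiv.swap (e0 ω) univ)
  have eω : e ω = univ := by simp [e]
  let enc : (I → A) → Finset (I × Fin t) := fun U => univ.filter fun p => p.2 ∈ e (U p.1)
  let blk : I → Finset (I × Fin t) := fun a => univ.filter fun p => p.1 = a
  have sur : ∀ S : Finset (I × Fin t), ∃ U, enc U = S := fun S =>
    ⟨fun j => e.symm (univ.filter fun i => (j, i) ∈ S), by ext p; simp [enc]⟩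
  rw [← pow_mul] at hR hN
  generalize hn1 : t * Fintype.card I = n1 at hR hN
  obtain ⟨W, -, hW⟩ := exists_subset_card_eq (s := (univ : Finset (Fin (n1 + 2 * t + 17))))
    (n := n1 + 5) (by simp; omega)
  obtain ⟨V, -, hV⟩ := exists_subset_card_eq (s := (univ : Finset (Fin (n1 + 2 * t + 17))))
    (n := t + 14) (by simp; omega)
  have hW' : Wᶜ.card = 2 * t + 12 := by rw [card_compl, hW, Fintype.card_fin]; omega
  have hV' : Vᶜ.card = n1 + t + 3 := by rw [card_compl, hV, Fintype.card_fin]; omega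
  obtain ⟨B', h1, h2⟩ := fin_move (G := (I × Fin t) ⊕ Fin (n1 + 2 * t + 17))
    (n := 2 * (n1 + t + 8) + 1)
    (by rw [Fintype.card_sum, Fintype.card_prod, Fintype.card_fin, Fintype.card_fin, mul_comm,
      hn1]; omega)
    ((((univ ×ˢ W.powerset).image fun p => (blk p.1).disjSum p.2) ∪
      ((R ×ˢ Wᶜ.powerset).image fun p => (enc p.1).disjSum p.2)) ∪
      (((N ×ˢ V.powerset).image fun p => (enc p.1).disjSum p.2) ∪
      (Vᶜ.powerset.image fun S => (∅ : Finset (I × Fin t)).disjSum S))) (fun S => by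
      obtain ⟨U, hU⟩ := sur S.toLeft
      by_cases hUN : U ∈ N
      · refine ⟨(enc U).disjSum (S.toRight ∩ V), mem_union_right _ (mem_union_left _
          (mem_image.2 ⟨(U, S.toRight ∩ V), mem_product.2 ⟨hUN, mem_powerset.2 inter_subset_right⟩,
            rfl⟩)), (∅ : Finset (I × Fin t)).disjSum (S.toRight ∩ Vᶜ), mem_union_right _
          (mem_union_right _ (mem_image.2 ⟨_, mem_powerset.2 inter_subset_right, rfl⟩)), ?_⟩
        rw [fin_union, fin_split, union_empty, hU, toLeft_disjSum_toRight]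
      · obtain ⟨r, hr, a, ha, hj⟩ := hc U hUN
        refine ⟨(blk a).disjSum (S.toRight ∩ W), mem_union_left _ (mem_union_left _
          (mem_image.2 ⟨(a, S.toRight ∩ W), mem_product.2
            ⟨mem_univ _, mem_powerset.2 inter_subset_right⟩, rfl⟩)),
          (enc r).disjSum (S.toRight ∩ Wᶜ), mem_union_left _ (mem_union_right _
          (mem_image.2 ⟨(r, S.toRight ∩ Wᶜ), mem_product.2
            ⟨hr, mem_powerset.2 inter_subset_right⟩, rfl⟩)), ?_⟩
        have e1 : blk a ∪ enc r = enc U := by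
          ext ⟨j, i⟩
          by_cases k : j = a
          · simp [blk, enc, k, ha, eω]
          · simp [blk, enc, k, hj j k]
        rw [fin_union, fin_split, e1, hU, toLeft_disjSum_toRight])
  refine ⟨_, B', lt_of_le_of_lt (h1.trans ((card_union_le _ _).trans (add_le_add
    ((card_union_le _ _).trans (add_le_add card_image_le card_image_le))
    ((card_union_le _ _).trans (add_le_add card_image_le card_image_le))))) ?_, h2⟩
  have d1 : (2 * (n1 + t + 8) + 1) / 2 = n1 + t + 8 := by omega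
  have d2 : (2 * (n1 + t + 8) + 1 + 1) / 2 = n1 + t + 9 := by omega
  rw [d1, d2]
  simp only [card_product, card_powerset, card_univ, hW, hW', hV, hV', hI, pow_add, two_mul]
  rw [hI] at hR
  have hX : 0 < 2 ^ n1 := by positivity
  have hT : 0 < 2 ^ t := by positivity
  generalize 2 ^ n1 = X at hR hN hX ⊢
  generalize 2 ^ t = T at hR hT ⊢
  have k1 := Nat.mul_le_mul_right T hR
  have k2 := Nat.mul_le_mul_right T hN
  have k3 : 0 < X * T := Nat.mul_pos hX hT
  rw [Nat.lt_sub_iff_add_lt]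
  nlinarith

end Pool.Agent.Lib.MP_a893c7_co.Sv
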