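import Pool.Agent.Lib.MP_a893c7_co.Sv.Df

/-! One stage of the parity sieve: erasure values of a Reed-Solomon code and their parity. -/

namespace Pool.Agent.Lib.MP_a893c7_co.Sv

open Finset Function Polynomial
open scoped Classical

variable {I F : Type} [Fintype I] [DecidableEq I] [Field F]

/-- The functional on polynomials given by the visible letters and the parity offset. -/
noncomputable def Ph (x : I → F) (l : F →+ ZMod 2) (w0 : F) (D : Finset I) (n : ℕ)
    (w : I → l.ker) (f : F[X]) : F :=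
  f.eval 0 * (n • w0) - ∑ j ∈ Dᶜ, f.eval (x j) * (w j : F)

/-- Erasure value at the hidden position `a`. -/
noncomputable def cv (x : I → F) (l : F →+ ZMod 2) (w0 : F) (P : Finset I) (n : ℕ)
    (w : I → l.ker) (a : I) : F :=
  Ph x l w0 P n w (Lagrange.basis P x a)

def ps (x : I → F) (l : F →+ ZMod 2) (w0 : F) (Y : Finset I) (w : I → l.ker) : Prop :=
  Ph x l w0 Y Y.card w (Lagrange.nodal Y x) = 0

noncomputable def nx (x : I → F) (l : F →+ ZMod 2) (w0 : F) (Y : Finset I) (w : I → l.ker) :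
    Finset I :=
  Y.filter (fun b => l (cv x l w0 Y Y.card w b) = 0)

variable {x : I → F} {l : F →+ ZMod 2} {w0 : F}

theorem Ph_eq {P : Finset I} (hP : Set.InjOn x P) (n : ℕ) (w : I → l.ker) {f : F[X]}
    (hf : f.degree < P.card) :
    Ph x l w0 P n w f = ∑ b ∈ P, f.eval (x b) * cv x l w0 P n w b := by
  have h : ∀ t, f.eval t = ∑ b ∈ P, f.eval (x b) * (Lagrange.basis P x b).eval t := by
    intro t
    conv_lhs => rw [Lagrange.eq_interpolate hP hf]
    simp [Lagrange.interpolate_apply, eval_finsetSum]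
  unfold cv Ph
  simp_rw [mul_sub, sum_sub_distrib, mul_sum]
  congr 1
  · rw [h 0, sum_mul]
    exact sum_congr rfl fun b _ => by ring
  · rw [sum_comm]
    refine sum_congr rfl fun j _ => ?_
    rw [h (x j), sum_mul]
    exact sum_congr rfl fun b _ => by ring

theorem Ph_upd {P : Finset I} {a : I} (ha : a ∈ P) (n : ℕ) (w : I → l.ker) (α : l.ker)
    (f : F[X]) :
    Ph x l w0 (P.erase a) n (update w a α) f = Ph x l w0 P n w f - f.eval (x a) * (α : F) := by
  unfold Ph
  have h : (P.erase a)ᶜ = insert a Pᶜ := by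
    ext j
    by_cases hj : j = a <;> simp [hj]
  rw [h, sum_insert (by simpa using ha), update_self]
  have : ∑ j ∈ Pᶜ, f.eval (x j) * ((update w a α j : l.ker) : F)
      = ∑ j ∈ Pᶜ, f.eval (x j) * (w j : F) := by
    refine sum_congr rfl fun j hj => ?_
    rw [update_of_ne]
    rintro rfl
    exact (mem_compl.1 hj) ha
  rw [this]
  ring

theorem ps_iff {P : Finset I} (hP : Set.InjOn x P) {a : I} (ha : a ∈ P) (w : I → l.ker)
    (α : l.ker) :
    ps x l w0 (P.erase a) (update w a α) ↔ (α : F) = cv x l w0 P (P.card - 1) w a := by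
  have hc : 0 < P.card := card_pos.2 ⟨a, ha⟩
  have hd : (Lagrange.nodal (P.erase a) x).degree < P.card := by
    rw [Lagrange.degree_nodal, card_erase_of_mem ha]
    exact_mod_cast Nat.sub_lt hc one_pos
  have hne : (Lagrange.nodal (P.erase a) x).eval (x a) ≠ 0 :=
    Lagrange.eval_nodal_not_at_node fun i hi e =>
      (mem_erase.1 hi).1 (hP (mem_coe.2 ha) (mem_coe.2 (mem_erase.1 hi).2) e).symm
  unfold ps
  rw [Ph_upd ha, Ph_eq hP _ _ hd, card_erase_of_mem ha, sum_eq_single a]
  · rw [← mul_sub, mul_eq_zero, sub_eq_zero]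
    constructor
    · rintro (h | h)
      · exact absurd h hne
      · exact h.symm
    · intro h
      exact Or.inr h.symm
  · intro b hb hba
    rw [Lagrange.eval_nodal_at_node (mem_erase.2 ⟨hba, hb⟩), zero_mul]
  · intro h
    exact absurd ha h

theorem cv_upd {P : Finset I} (hP : Set.InjOn x P) {a b : I} (ha : a ∈ P) (hb : b ∈ P.erase a)
    (n : ℕ) (w : I → l.ker) (α : l.ker) (hα : (α : F) = cv x l w0 P n w a) :
    cv x l w0 (P.erase a) n (update w a α) b = cv x l w0 P n w b := by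
  have hY : Set.InjOn x (P.erase a : Finset I) := hP.mono (coe_subset.2 (erase_subset _ _))
  have hc : 0 < P.card := card_pos.2 ⟨a, ha⟩
  have hd : (Lagrange.basis (P.erase a) x b).degree < P.card := by
    rw [Lagrange.degree_basis hY hb, card_erase_of_mem ha]
    exact_mod_cast lt_of_le_of_lt (Nat.sub_le _ _) (Nat.sub_lt hc one_pos)
  conv_lhs => unfold cv
  rw [Ph_upd ha, Ph_eq hP _ _ hd, ← add_sum_erase _ _ ha, sum_eq_single b,
    Lagrange.eval_basis_self hY hb, hα]
  · ring
  · intro c hc hcb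
    rw [Lagrange.eval_basis_of_ne hcb.symm hc, zero_mul]
  · intro h
    exact absurd hb h

theorem surv_iff {P : Finset I} (hP : Set.InjOn x P) {a : I} (ha : a ∈ P) (w : I → l.ker) :
    Surv (ps x l w0) P w a ↔ l (cv x l w0 P (P.card - 1) w a) = 0 := by
  constructor
  · rintro ⟨α, h⟩
    rw [← (ps_iff hP ha w α).1 h]
    exact α.2
  · intro h
    exact ⟨⟨_, h⟩, (ps_iff hP ha w _).2 rfl⟩

theorem nx_eq (P : Finset I) (hP : Set.InjOn x P) (a : I) (ha : a ∈ P) (w : I → l.ker)
    (α : l.ker) (h : ps x l w0 (P.erase a) (update w a α)) :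
    nx x l w0 (P.erase a) (update w a α) = (Svs (ps x l w0) P w).erase a := by
  have hα := (ps_iff hP ha w α).1 h
  ext b
  unfold nx
  rw [mem_filter, mem_erase, mem_erase, mem_Svs, card_erase_of_mem ha]
  constructor
  · rintro ⟨⟨h1, h2⟩, h3⟩
    rw [cv_upd hP ha (mem_erase.2 ⟨h1, h2⟩) _ _ _ hα] at h3
    exact ⟨h1, h2, (surv_iff hP h2 w).2 h3⟩
  · rintro ⟨h1, h2, h3⟩
    refine ⟨⟨h1, h2⟩, ?_⟩
    rw [cv_upd hP ha (mem_erase.2 ⟨h1, h2⟩) _ _ _ hα]
    exact (surv_iff hP h2 w).1 h3

theorem z2 (t : ZMod 2) (h : t ≠ 0) : t = 1 := by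
  revert t; decide

theorem st_cover (hw : l w0 = 1) (P : Finset I) (hP : Set.InjOn x P) (hne : P.Nonempty)
    (w : I → l.ker) : ∃ a ∈ P, Surv (ps x l w0) P w a := by
  by_contra hcon
  have h1 : ∀ a ∈ P, l (cv x l w0 P (P.card - 1) w a) = 1 := fun a ha =>
    z2 _ fun h => hcon ⟨a, ha, (surv_iff hP ha w).2 h⟩
  have hc : 0 < P.card := card_pos.2 hne
  have hd : (1 : F[X]).degree < P.card := by
    rw [degree_one]
    exact_mod_cast hc
  have h2 := congrArg l (Ph_eq (w0 := w0) hP (P.card - 1) w hd)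
  simp only [Ph, eval_one, one_mul, map_sub, map_sum, map_nsmul, hw] at h2
  rw [sum_congr rfl h1, sum_eq_zero (fun j _ => (w j).2), sum_const] at h2
  obtain ⟨m, hm⟩ : ∃ m, P.card = m + 1 := ⟨P.card - 1, by omega⟩
  rw [hm, Nat.add_sub_cancel, succ_nsmul, sub_zero] at h2
  have : (1 : ZMod 2) = 0 := by simpa using h2
  exact one_ne_zero this

theorem ex_flip (hw : l w0 = 1) {γ : F} (h0 : γ ≠ 0) (h1 : γ ≠ 1) :
    ∃ v : l.ker, l (γ * v) = 1 := by
  by_contra hcon
  have hk : ∀ v : F, l v = 0 → l (γ * v) = 0 := by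
    intro v hv
    by_contra h
    exact hcon ⟨⟨v, hv⟩, z2 _ h⟩
  by_cases he : l (γ * w0) = 0
  · have hall : ∀ y : F, l (γ * y) = 0 := by
      intro y
      by_cases hy : l y = 0
      · exact hk y hy
      · have h2 := hk (y - w0) (by rw [map_sub, z2 _ hy, hw, sub_self])
        rwa [mul_sub, map_sub, he, sub_zero] at h2
    have := hall (γ⁻¹ * w0)
    rw [mul_inv_cancel_left₀ h0, hw] at this
    exact one_ne_zero this
  · have hall : ∀ y : F, l ((γ - 1) * y) = 0 := by
      intro y
      rw [sub_mul, one_mul, map_sub, sub_eq_zero]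
      by_cases hy : l y = 0
      · rw [hk y hy, hy]
      · have h2 := hk (y - w0) (by rw [map_sub, z2 _ hy, hw, sub_self])
        rw [mul_sub, map_sub, z2 _ he, sub_eq_zero] at h2
        rw [h2, z2 _ hy]
    have := hall ((γ - 1)⁻¹ * w0)
    rw [mul_inv_cancel_left₀ (sub_ne_zero.2 h1), hw] at this
    exact one_ne_zero this

theorem ex_pt [Fintype F] {P : Finset I} (hP : Set.InjOn x P) {a b : I} (ha : a ∈ P) (hb : b ∈ P)
    (hab : a ≠ b) (hc : 2 * P.card ≤ Fintype.card F) :
    ∃ ξ : F, (Lagrange.basis P x a).eval ξ ≠ 0 ∧ (Lagrange.basis P x a).eval ξ ≠ 1 := by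
  by_contra hcon
  set L := Lagrange.basis P x a with hL
  have h0 : L ≠ 0 := Lagrange.basis_ne_zero hP ha
  have h1 : L - 1 ≠ 0 := by
    intro h
    have := congrArg (Polynomial.eval (x b)) h
    rw [eval_sub, hL, Lagrange.eval_basis_of_ne hab hb] at this
    simp at this
  have hd : L.natDegree = P.card - 1 := Lagrange.natDegree_basis hP ha
  have hd1 : (L - 1).natDegree ≤ P.card - 1 := by
    refine (natDegree_sub_le _ _).trans ?_
    rw [hd, natDegree_one]
    simp
  have hp : 0 < P.card := card_pos.2 ⟨a, ha⟩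
  refine mul_ne_zero h0 h1 (eq_zero_of_natDegree_lt_card_of_eval_eq_zero (L * (L - 1))
    (f := id) injective_id (fun ξ => ?_) ?_)
  · rw [eval_mul, eval_sub, eval_one, mul_eq_zero, sub_eq_zero]
    by_contra h
    push Not at h
    exact hcon ⟨ξ, h.1, h.2⟩
  · have := natDegree_mul_le (p := L) (q := L - 1)
    omega

theorem st_sys [Fintype F] [Fintype l.ker] (hw : l w0 = 1) {zm : ℕ} (hz : 2 * zm ≤ Fintype.card F)
    (hx : ∀ ξ : F, ∃ j j' : I, j ≠ j' ∧ x j = ξ ∧ x j' = ξ) : Sys x zm 1 (ps x l w0) := by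
  refine ⟨st_cover hw, ?_, ?_⟩
  · intro Y a ha hY u α β hα hβ
    have e0 : (insert a Y).erase a = Y := erase_insert ha
    rw [← e0] at hα hβ
    exact Subtype.ext (((ps_iff hY (mem_insert_self _ _) u α).1 hα).trans
      ((ps_iff hY (mem_insert_self _ _) u β).1 hβ).symm)
  · intro Z P hPZ hZ hc a ha b hb hab u0
    have hP : Set.InjOn x P := hZ.mono (coe_subset.2 hPZ)
    obtain ⟨ξ, hξ0, hξ1⟩ := ex_pt hP ha hb hab
      (le_trans (Nat.mul_le_mul_left 2 ((card_le_card hPZ).trans hc)) hz)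
    obtain ⟨v, hv⟩ := ex_flip hw hξ0 hξ1
    obtain ⟨j, hjZ, hj⟩ : ∃ j, j ∉ Z ∧ x j = ξ := by
      obtain ⟨j, j', hne, h1, h2⟩ := hx ξ
      by_cases h : j ∈ Z
      · exact ⟨j', fun h' => hne (hZ (mem_coe.2 h) (mem_coe.2 h') (h1.trans h2.symm)), h2⟩
      · exact ⟨j, h, h1⟩
    have hjP : j ∈ Pᶜ := mem_compl.2 fun h => hjZ (hPZ h)
    have hfl : ∀ w : I → l.ker, l (cv x l w0 P (P.card - 1) (update w j (w j + v)) a)
        = l (cv x l w0 P (P.card - 1) w a) - 1 := by
      intro w
      rw [← hv, ← map_sub]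
      congr 1
      unfold cv Ph
      rw [← add_sum_erase _ _ hjP, ← add_sum_erase _ _ hjP, update_self, hj]
      have : ∑ i ∈ Pᶜ.erase j, (Lagrange.basis P x a).eval (x i) *
            ((update w j (w j + v) i : l.ker) : F)
          = ∑ i ∈ Pᶜ.erase j, (Lagrange.basis P x a).eval (x i) * (w i : F) :=
        sum_congr rfl fun i hi => by rw [update_of_ne (mem_erase.1 hi).1]
      rw [this]
      push_cast
      ring
    have hsub : Both (ps x l w0) Z P u0 a b ⊆ Om Z u0 := filter_subset _ _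
    have h2 : (Both (ps x l w0) Z P u0 a b).card ≤
        (Om Z u0 \ Both (ps x l w0) Z P u0 a b).card := by
      refine card_le_card_of_injOn (fun w => update w j (w j + v)) ?_ ?_
      · intro w hw'
        obtain ⟨h0, h1, _⟩ := mem_Both.1 (mem_coe.1 hw')
        refine mem_coe.2 (mem_sdiff.2 ⟨mem_Om.2 fun i hi => ?_, fun h => ?_⟩)
        · show update w j (w j + v) i = u0 i
          rw [update_of_ne (fun e : i = j => hjZ (e ▸ hi))]
          exact mem_Om.1 h0 i hi
        · have h3 := (surv_iff hP ha _).1 (mem_Both.1 h).2.1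
          rw [hfl, (surv_iff hP ha _).1 h1] at h3
          revert h3; decide
      · intro w _ w' _ e
        funext i
        by_cases hi : i = j
        · subst hi
          have := congrFun e i
          simpa using this
        · have := congrFun e i
          simpa [update_of_ne hi] using this
    rw [card_sdiff_of_subset hsub] at h2
    have := card_le_card hsub
    omega

end Pool.Agent.Lib.MP_a893c7_co.Sv
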